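import Pool.Agent.Lib.LNA.Main

/-!
# Finitely generated associator nilpotent Jordan algebras in characteristic p

Over an infinite field of odd characteristic every finitely generated Jordan algebra in which all
long left-normed associators vanish satisfies all identities of a finite-dimensional Jordan algebra.
-/

set_option autoImplicit false

namespace Pool.Agent.Results.MP_13d782_al.AssociatorNilpotentJordan

/-- `assoc F A 0 = A`, and `assoc F A (k+1)` is the span of all associators
`(v,a,b) = (va)b - v(ab)` with `v` in `assoc F A k` and `a`, `b` in `A`. -/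
def assoc (F A : Type) [Field F] [NonUnitalNonAssocRing A] [Module F A] : ℕ → Submodule F A
  | 0 => ⊤
  | k + 1 => Submodule.span F {w | ∃ v ∈ assoc F A k, ∃ a b, w = v * a * b - v * (a * b)}

theorem ser_le (F A : Type) [Field F] [NonUnitalNonAssocRing A] [Module F A]
    (hc : ∀ x y : A, x * y = y * x) (k : ℕ) :
    Pool.Agent.Lib.LNA.ser F A k ≤ assoc F A k := by
  induction k with
  | zero => exact le_rfl
  | succ k ih =>
    refine Submodule.span_le.2 ?_
    rintro w (⟨v, hv, a, rfl⟩ | ⟨v, hv, a, b, rfl⟩)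
    · unfold Pool.Agent.Lib.LNA.cm
      rw [hc v a, sub_self]
      exact Submodule.zero_mem _
    · exact Submodule.subset_span ⟨v, ih hv, a, b, rfl⟩

/-- Let `F` be an infinite field of characteristic `p > 2` and `A` a finitely generated Jordan
`F`-algebra such that `assoc F A c = 0` for some `c` (every long left-normed associator
`((..(a₀,a₁,a₂),..),a_{2c-1},a_{2c})` vanishes). Then there is a finite-dimensional Jordan algebra `B`
with `T(B) ⊆ T(A)`; if `A` has a unit element, then `T(B) = T(A)`. -/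
theorem result (F : Type) [Field F] [Infinite F] (p : ℕ) [Fact p.Prime] [CharP F p] (hp2 : p ≠ 2)
    (A : Type) [NonUnitalNonAssocRing A] [Module F A] [IsScalarTower F A A] [SMulCommClass F A A]
    (hcomm : ∀ x y : A, x * y = y * x)
    (hjor : ∀ x y : A, x * x * y * x = x * x * (y * x))
    (hfg : ∃ (n : ℕ) (g : Fin n → A),
      Function.Surjective (FreeNonUnitalNonAssocAlgebra.lift F g))
    (hnil : ∃ c : ℕ, assoc F A c = ⊥) :
    ∃ (B : Type) (_ : NonUnitalNonAssocRing B) (_ : Module F B)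
      (_ : IsScalarTower F B B) (_ : SMulCommClass F B B),
      FiniteDimensional F B ∧
      (∀ x y : B, x * y = y * x) ∧
      (∀ x y : B, x * x * y * x = x * x * (y * x)) ∧
      (∀ f : FreeNonUnitalNonAssocAlgebra F ℕ,
        (∀ φ : ℕ → B, FreeNonUnitalNonAssocAlgebra.lift F φ f = 0) →
        ∀ ψ : ℕ → A, FreeNonUnitalNonAssocAlgebra.lift F ψ f = 0) ∧
      ((∃ e : A, ∀ x : A, e * x = x ∧ x * e = x) →
        ∀ f : FreeNonUnitalNonAssocAlgebra F ℕ,
          (∀ ψ : ℕ → A, FreeNonUnitalNonAssocAlgebra.lift F ψ f = 0) →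
          ∀ φ : ℕ → B, FreeNonUnitalNonAssocAlgebra.lift F φ f = 0) := by
  have hp : p.Prime := Fact.out
  have h2 : (2 : F) ≠ 0 := by
    intro h0
    have h1 : ((2 : ℕ) : F) = 0 := by exact_mod_cast h0
    rw [CharP.cast_eq_zero_iff F p] at h1
    exact hp2 ((Nat.prime_dvd_prime_iff_eq hp Nat.prime_two).1 h1)
  obtain ⟨c, hc⟩ := hnil
  have hs : Pool.Agent.Lib.LNA.ser F A c = ⊥ := by
    rw [eq_bot_iff, ← hc]
    exact ser_le F A hcomm c
  obtain ⟨B, i1, i2, i3, i4, h1, -, h3, h4, h5⟩ :=
    Pool.Agent.Lib.LNA.main (F := F) (A := A) hp (Or.inr ⟨h2, hcomm, hjor⟩) hs hfg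
  refine ⟨B, i1, i2, i3, i4, h1, (h3 ⟨hcomm, hjor⟩).1, (h3 ⟨hcomm, hjor⟩).2, h4, ?_⟩
  rintro ⟨e, he⟩
  exact h5 ⟨e, ⟨fun x => (he x).1, fun x => (he x).2⟩⟩

end Pool.Agent.Results.MP_13d782_al.AssociatorNilpotentJordan
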