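import Pool.Agent.Lib.LNA.Lie

/-!
# Finitely generated Lie nilpotent alternative algebras in characteristic p

Over an infinite field of positive characteristic every finitely generated alternative algebra which
is nilpotent with respect to commutators and associators satisfies all identities of a
finite-dimensional alternative algebra.
-/

set_option autoImplicit false

namespace Pool.Agent.Results.MP_13d782_al.LieNilpotentAlternative

/-- `lower F A 0 = A`, and `lower F A (k+1)` is the span of all commutators `[v,a] = va - av` and all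
associators `(v,a,b) = (va)b - v(ab)` with `v` in `lower F A k` and `a`, `b` in `A`. -/
def lower (F A : Type) [Field F] [NonUnitalNonAssocRing A] [Module F A] : ℕ → Submodule F A
  | 0 => ⊤
  | k + 1 => Submodule.span F
      ({w | ∃ v ∈ lower F A k, ∃ a, w = v * a - a * v} ∪
        {w | ∃ v ∈ lower F A k, ∃ a b, w = v * a * b - v * (a * b)})

/-- `lie F A 0 = A`, and `lie F A (k+1)` is the span of all commutators `[v,a] = va - av` with `v` in
`lie F A k` and `a` in `A`. -/
def lie (F A : Type) [Field F] [NonUnitalNonAssocRing A] [Module F A] : ℕ → Submodule F A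
  | 0 => ⊤
  | k + 1 => Submodule.span F {w | ∃ v ∈ lie F A k, ∃ a, w = v * a - a * v}

theorem lower_eq (F A : Type) [Field F] [NonUnitalNonAssocRing A] [Module F A] (k : ℕ) :
    lower F A k = Pool.Agent.Lib.LNA.ser F A k := by
  induction k with
  | zero => rfl
  | succ k ih =>
    unfold lower Pool.Agent.Lib.LNA.ser
    rw [ih]
    rfl

theorem lie_eq (F A : Type) [Field F] [NonUnitalNonAssocRing A] [Module F A] (k : ℕ) :
    lie F A k = Pool.Agent.Lib.LNA.lser F A k := by
  induction k with
  | zero => rfl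
  | succ k ih =>
    unfold lie Pool.Agent.Lib.LNA.lser
    rw [ih]
    rfl

/-- Let `F` be an infinite field of characteristic `p > 0` and `A` a finitely generated alternative
`F`-algebra such that `lower F A c = 0` for some `c`, or `p > 3` and `lie F A c = 0` for some `c`
(every long left-normed commutator vanishes). Then there is a finite-dimensional alternative algebra
`B` with `T(B) ⊆ T(A)`; if `A` has a unit element, then `T(B) = T(A)`. -/
theorem result (F : Type) [Field F] [Infinite F] (p : ℕ) [Fact p.Prime] [CharP F p]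
    (A : Type) [NonUnitalNonAssocRing A] [Module F A] [IsScalarTower F A A] [SMulCommClass F A A]
    (halt : ∀ x y : A, x * x * y = x * (x * y) ∧ y * x * x = y * (x * x))
    (hfg : ∃ (n : ℕ) (g : Fin n → A),
      Function.Surjective (FreeNonUnitalNonAssocAlgebra.lift F g))
    (hnil : (∃ c : ℕ, lower F A c = ⊥) ∨ (3 < p ∧ ∃ c : ℕ, lie F A c = ⊥)) :
    ∃ (B : Type) (_ : NonUnitalNonAssocRing B) (_ : Module F B)
      (_ : IsScalarTower F B B) (_ : SMulCommClass F B B),
      FiniteDimensional F B ∧
      (∀ x y : B, x * x * y = x * (x * y) ∧ y * x * x = y * (x * x)) ∧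
      (∀ f : FreeNonUnitalNonAssocAlgebra F ℕ,
        (∀ φ : ℕ → B, FreeNonUnitalNonAssocAlgebra.lift F φ f = 0) →
        ∀ ψ : ℕ → A, FreeNonUnitalNonAssocAlgebra.lift F ψ f = 0) ∧
      ((∃ e : A, ∀ x : A, e * x = x ∧ x * e = x) →
        ∀ f : FreeNonUnitalNonAssocAlgebra F ℕ,
          (∀ ψ : ℕ → A, FreeNonUnitalNonAssocAlgebra.lift F ψ f = 0) →
          ∀ φ : ℕ → B, FreeNonUnitalNonAssocAlgebra.lift F φ f = 0) := by
  have hp : p.Prime := Fact.out
  have hs : ∃ c : ℕ, Pool.Agent.Lib.LNA.ser F A c = ⊥ := by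
    rcases hnil with ⟨c, hc⟩ | ⟨h3, c, hc⟩
    · exact ⟨c, by rw [← lower_eq]; exact hc⟩
    · refine ⟨c, ?_⟩
      rw [eq_bot_iff, ← hc, lie_eq]
      exact Pool.Agent.Lib.LNA.ser_le_lser (Pool.Agent.Lib.LNA.six_ne hp h3) halt c
  obtain ⟨c, hc⟩ := hs
  obtain ⟨B, i1, i2, i3, i4, h1, h2, -, h4, h5⟩ :=
    Pool.Agent.Lib.LNA.main (F := F) (A := A) hp (Or.inl halt) hc hfg
  refine ⟨B, i1, i2, i3, i4, h1, h2 halt, h4, ?_⟩
  rintro ⟨e, he⟩
  exact h5 ⟨e, ⟨fun x => (he x).1, fun x => (he x).2⟩⟩

end Pool.Agent.Results.MP_13d782_al.LieNilpotentAlternative
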